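import Mathlib

/-!
Definitions for the Euler equations on the torus projected on spaces with scalar constraints.
-/

namespace Pool.Agent.Run7.h407.LE

open Set Filter Topology MeasureTheory
open scoped ContDiff

/-- Points and vectors of `ℝ³`. -/
abbrev E3 : Type := Fin 3 → ℝ

/-- The maximum norm. -/
noncomputable def mag (v : E3) : ℝ := ‖v‖

/-- The distance of two points in the maximum norm. -/
noncomputable def dst (x z : E3) : ℝ := ‖x - z‖

/-- The cube `[-π, π)³`. -/
def cube : Set E3 := {x | ∀ i, -Real.pi ≤ x i ∧ x i < Real.pi}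

/-- The integral over the cube. -/
noncomputable def total (f : E3 → ℝ) : ℝ := ∫ x in cube, f x

/-- The function is square integrable over the cube. -/
def SqInt (f : E3 → ℝ) : Prop := MemLp f 2 (volume.restrict cube)

/-- The fields are equal almost everywhere in the cube. -/
def AEEq (v w : E3 → E3) : Prop := ∀ᵐ x ∂(volume.restrict cube), v x = w x

/-- Functions on the torus `ℝ³ / (2πℤ)³`. -/
def Periodic {E : Type} (u : E3 → E) : Prop :=
  ∀ (x : E3) (k : Fin 3 → ℤ), u (fun i => x i + 2 * Real.pi * k i) = u x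

/-- The derivative of a scalar function in the direction of the `j`-th axis. -/
noncomputable def pderiv (j : Fin 3) (f : E3 → ℝ) (x : E3) : ℝ := fderiv ℝ f x (Pi.single j 1)

/-- The divergence of a vector field. -/
noncomputable def divergence (u : E3 → E3) (x : E3) : ℝ := ∑ i, pderiv i (fun y => u y i) x

/-- The vorticity. -/
noncomputable def vorticity (u : E3 → E3) (x : E3) : E3 :=
  ![pderiv 1 (fun y => u y 2) x - pderiv 2 (fun y => u y 1) x,
    pderiv 2 (fun y => u y 0) x - pderiv 0 (fun y => u y 2) x,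
    pderiv 0 (fun y => u y 1) x - pderiv 1 (fun y => u y 0) x]

/-- The acceleration `(u·∇)u`. -/
noncomputable def acceleration (u : E3 → E3) (x : E3) : E3 :=
  fun i => ∑ j, u x j * pderiv j (fun y => u y i) x

/-- `U` is a steady flow: the curl of `(U·∇)U` vanishes (so that `(U·∇)U` is a gradient). -/
def IsSteady (U : E3 → E3) : Prop := ∀ (i j : Fin 3) (x : E3),
  pderiv i (fun y => acceleration U y j) x = pderiv j (fun y => acceleration U y i) x

/-- Smooth vector fields on `ℝ³`. -/
def Smooth (v : E3 → E3) : Prop := ContDiff ℝ ∞ v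

/-- Smooth divergence-free vector fields on the torus. -/
structure IsFlow (v : E3 → E3) : Prop where
  smooth : Smooth v
  periodic : Periodic v
  div_free : ∀ x, divergence v x = 0

/-- Smooth scalar functions on the torus. -/
def IsTest (φ : E3 → ℝ) : Prop := ContDiff ℝ ∞ φ ∧ Periodic φ

/-- In the cube, the field vanishes outside the ball `|x - z| ≤ ρ`. -/
def CubeInBall (z : E3) (ρ : ℝ) (v : E3 → E3) : Prop := ∀ x ∈ cube, ρ < dst x z → v x = 0

/-- The field vanishes outside the ball `|x| ≤ ρ`. -/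
def InBall (ρ : ℝ) (v : E3 → E3) : Prop := ∀ x, ρ < mag x → v x = 0

/-- The field vanishes in a neighbourhood of `z`: `z` is not in the support of the field. -/
def VanishesNear (z : E3) (v : E3 → E3) : Prop := ∃ ρ > 0, ∀ x, dst x z < ρ → v x = 0

/-- In the cube, `v` is the translate `w(x - z)`. -/
def IsShift (z : E3) (v w : E3 → E3) : Prop := ∀ x ∈ cube, v x = w (x - z)

/-- The multiple `a v`. -/
def scale (a : ℝ) (v : E3 → E3) : E3 → E3 := fun x i => a * v x i

/-- The sum of two fields. -/
def plus (v w : E3 → E3) : E3 → E3 := fun x i => v x i + w x i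

/-- The `L²` inner product on the torus. -/
noncomputable def innerL2 (u v : E3 → E3) : ℝ := total fun x => ∑ i, u x i * v x i

/-- The `i`-th component of `∂ₜu + (u·∇)u` at time `t` and position `x`. -/
noncomputable def residual (u : ℝ → E3 → E3) (t : ℝ) (x : E3) (i : Fin 3) : ℝ :=
  deriv (fun s => u s x i) t + ∑ j, u t x j * pderiv j (fun y => u t y i) x

/-- Square integrable fields on the torus whose divergence vanishes in the sense of
distributions. -/
structure IsSolenoidal (w : E3 → E3) : Prop where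
  periodic : Periodic w
  sqInt : ∀ i, SqInt (fun x => w x i)
  div_free : ∀ φ, IsTest φ → total (fun x => ∑ i, w x i * pderiv i φ x) = 0

/-- The constraints: `w` is orthogonal to all the fields `g n i`. -/
def Constrained (g : ℕ → Fin 2 → E3 → E3) (w : E3 → E3) : Prop :=
  ∀ (n : ℕ) (i : Fin 2), innerL2 w (g n i) = 0

/-- The linear spaces `W` of square integrable divergence-free fields satisfying the constraints
which contain all smooth fields of the form `∑ c_n p_n`. -/
structure IsSpace (p : ℕ → E3 → E3) (g : ℕ → Fin 2 → E3 → E3) (W : Set (E3 → E3)) : Prop where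
  linear : ∀ v ∈ W, ∀ w ∈ W, ∀ a b : ℝ, plus (scale a v) (scale b w) ∈ W
  upper : ∀ w ∈ W, IsSolenoidal w ∧ Constrained g w
  lower : ∀ v, Smooth v → Periodic v →
    (∃ c : ℕ → ℝ, ∀ x i, HasSum (fun n => c n * p n x i) (v x i)) → v ∈ W

/-- `u` is a classical solution on `[0,T)` of the Euler equations projected on the space `W`:
it is continuously differentiable on `[0,T) × ℝ³` up to `t = 0`; `u(t)` is in `W`; and for
`0 < t < T` the residual `∂ₜu + (u·∇)u` is orthogonal to `W` (the pressure drops out, since the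
fields in `W` are divergence-free). -/
structure IsProjected (W : Set (E3 → E3)) (T : ℝ) (u : ℝ → E3 → E3) : Prop where
  smooth : ContDiffOn ℝ 1 (fun z : ℝ × E3 => u z.1 z.2) (Ico 0 T ×ˢ univ)
  mem : ∀ t ∈ Ico 0 T, u t ∈ W
  eqn : ∀ t ∈ Ioo 0 T, ∀ w ∈ W, total (fun x => ∑ i, residual u t x i * w x i) = 0

/-- The time-dependent field is smooth on `I × ℝ³`. -/
def SmoothOn (I : Set ℝ) (u : ℝ → E3 → E3) : Prop :=
  ContDiffOn ℝ ∞ (fun z : ℝ × E3 => u z.1 z.2) (I ×ˢ univ)

/-- `v` is an admissible weak solution on `[0,T)` of the Euler equations projected on the space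
`W`: it is jointly measurable, `v(t)` is in `W`, its energy is at most the initial energy, and for
`0 < t < T` and all test fields `ψ`, smooth on `[0,t] × ℝ³`, with `ψ(s)` in `W`,
`(v(t), ψ(t)) - (v(0), ψ(0)) = ∫₀ᵗ ∫ (v · ∂ₛψ + v ⊗ v : ∇ψ) dx ds`. -/
structure IsAdmissible (W : Set (E3 → E3)) (T : ℝ) (v : ℝ → E3 → E3) : Prop where
  measurable : AEStronglyMeasurable (fun y : ℝ × E3 => v y.1 y.2)
    (volume.restrict (Ioo 0 T ×ˢ cube))
  mem : ∀ t ∈ Ico 0 T, v t ∈ W
  energy : ∀ t ∈ Ico 0 T, innerL2 (v t) (v t) ≤ innerL2 (v 0) (v 0)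
  weak : ∀ t ∈ Ioo 0 T, ∀ ψ : ℝ → E3 → E3, SmoothOn (Icc 0 t) ψ → (∀ s ∈ Icc 0 t, ψ s ∈ W) →
    innerL2 (v t) (ψ t) - innerL2 (v 0) (ψ 0) = ∫ s in (0 : ℝ)..t, total fun x =>
      ∑ i, (v s x i * deriv (fun r => ψ r x i) s
        + ∑ j, v s x i * v s x j * pderiv j (fun y => ψ s y i) x)

/-- The universal modes `P m` and constraint fields `G m i` on `ℝ³`: smooth fields supported in
the ball `|x| ≤ 2^(-q^m)`; the modes are divergence-free and not zero; the constraint fields
vanish near `0`. -/
structure IsUniversal (q : ℝ) (P : ℕ → E3 → E3) (G : ℕ → Fin 2 → E3 → E3) : Prop where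
  mode : ∀ m, Smooth (P m) ∧ (∀ x, divergence (P m) x = 0) ∧ (∃ x, 0 < mag (P m x)) ∧
    InBall (2 ^ (-(q ^ m))) (P m)
  field : ∀ m i, Smooth (G m i) ∧ VanishesNear 0 (G m i) ∧ InBall (2 ^ (-(q ^ m))) (G m i)

/-- The modes `p n` and the constraint fields `g n i`: `p 0 = U`; the modes are smooth periodic
divergence-free fields, none of them zero, mutually orthogonal in `L²`; the constraint fields are
smooth and periodic, and they vanish near `z`; for `n ≥ 3` both are, in the cube, the universal
ones with the index `n + k`, translated to the point `z`; and all square integrable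
divergence-free fields which satisfy the constraints form an admissible space (the largest
one). -/
structure IsFamily (P : ℕ → E3 → E3) (G : ℕ → Fin 2 → E3 → E3) (k : ℕ) (z : E3) (U : E3 → E3)
    (p : ℕ → E3 → E3) (g : ℕ → Fin 2 → E3 → E3) : Prop where
  first : p 0 = U
  mode : ∀ n, IsFlow (p n) ∧ 0 < innerL2 (p n) (p n)
  orthogonal : ∀ m n, m ≠ n → innerL2 (p m) (p n) = 0
  field : ∀ n i, Smooth (g n i) ∧ Periodic (g n i) ∧ VanishesNear z (g n i)
  universal : ∀ n ≥ 3, IsShift z (p n) (P (n + k)) ∧ ∀ i, IsShift z (g n i) (G (n + k) i)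
  largest : IsSpace p g {w | IsSolenoidal w ∧ Constrained g w}

/-- Blow-up from the datum `v` before the time `T₀`: there are `T ≤ T₀` and a smooth field `u` on
`[0,T)` with `u(0) = v`, with `|u| ≤ C` and, in the cube, `|∇u(t,x)| ≤ C |x - z|^(-δ)`, whose
vorticity is unbounded as `t → T`, and which solves the equations projected on `W` for all
admissible spaces `W` at once. For each of these spaces every solution with the datum `v` is a
restriction of `u`; in particular none exists beyond `T`; and every admissible weak solution with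
the datum `v` (on some interval `[0,T')`) is equal to `u(t)` almost everywhere, for all times
`t < T', T`. -/
def BlowsUp (δ : ℝ) (z : E3) (p : ℕ → E3 → E3) (g : ℕ → Fin 2 → E3 → E3) (v : E3 → E3)
    (T₀ : ℝ) : Prop :=
  ∃ T, 0 < T ∧ T ≤ T₀ ∧ ∃ u : ℝ → E3 → E3, SmoothOn (Ico 0 T) u ∧ u 0 = v ∧
    (∃ C, ∀ t ∈ Ico 0 T, ∀ x, mag (u t x) ≤ C) ∧
    (∃ C, ∀ t ∈ Ico 0 T, ∀ x ∈ cube, ∀ i j, |pderiv j (fun y => u t y i) x| * dst x z ^ δ ≤ C) ∧
    (∀ M, ∀ᶠ t in 𝓝[<] T, ∃ x, M < mag (vorticity (u t) x)) ∧
    ∀ W : Set (E3 → E3), IsSpace p g W → IsProjected W T u ∧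
      (∀ (T' : ℝ) (w : ℝ → E3 → E3), IsProjected W T' w → w 0 = v →
        T' ≤ T ∧ ∀ t ∈ Ico 0 T', w t = u t) ∧
      ∀ (T' : ℝ) (w : ℝ → E3 → E3), IsAdmissible W T' w → AEEq (w 0) v →
        ∀ t ∈ Ico 0 T', t < T → AEEq (w t) (u t)

end Pool.Agent.Run7.h407.LE
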