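import Mathlib
import Pool.Agent.Run7.h407.LE.Defs
import Pool.Agent.Run7.h407.DU.MainE
import Pool.Agent.Run7.h407.LH.Tor

/-!
The blow-up theorem for the Euler equations in terms of the definitions of LE/Defs.
-/

namespace Pool.Agent.Run7.h407.LE

open Set Filter Topology MeasureTheory
open scoped ContDiff

/-- An admissible space as a submodule. -/
def IsSpace.sub {p : ℕ → E3 → E3} {g : ℕ → Fin 2 → E3 → E3} {W : Set (E3 → E3)}
    (h : IsSpace p g W) : Submodule ℝ (E3 → E3) where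
  carrier := W
  add_mem' := fun {v w} hv hw => by
    have h1 := h.linear v hv w hw 1 1
    have e : plus (scale 1 v) (scale 1 w) = v + w := by
      funext x i
      simp [plus, scale]
    rwa [e] at h1
  zero_mem' := h.lower 0 contDiff_const (fun _ _ => rfl)
    ⟨fun _ => 0, fun x i => by simpa using (hasSum_zero : HasSum (fun _ : ℕ => (0 : ℝ)) 0)⟩
  smul_mem' := fun a v hv => by
    have h1 := h.linear v hv v hv a 0
    have e : plus (scale a v) (scale 0 v) = a • v := by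
      funext x i
      simp [plus, scale]
    rwa [e] at h1

open Pool.Agent.Run7.h407 Pool.Agent.Run7.h407.G in
theorem IsSpace.spt {p : ℕ → E3 → E3} {g : ℕ → Fin 2 → E3 → E3} {W : Set (E3 → E3)}
    (h : IsSpace p g W) : IsSpT p g h.sub :=
  ⟨fun w hw => (h.upper w hw).1.periodic, fun w hw => (h.upper w hw).1.sqInt,
    fun w hw => fun φ h1 h2 => (h.upper w hw).1.div_free φ ⟨h1, h2⟩,
    fun w hw => (h.upper w hw).2, fun v h1 h2 ⟨c, hc⟩ => h.lower v h1 h2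
      ⟨c, fun x i => (Pi.hasSum.1 (hc x)) i⟩⟩

open Pool.Agent.Run7.h407 Pool.Agent.Run7.h407.G in
theorem proj_iff {p : ℕ → E3 → E3} {g : ℕ → Fin 2 → E3 → E3} {W : Set (E3 → E3)}
    (h : IsSpace p g W) {T : ℝ} {u : ℝ → E3 → E3} : IsProjected W T u ↔ IsProjT h.sub T u :=
  ⟨fun h => ⟨h.smooth, h.mem, h.eqn⟩, fun h => ⟨h.c1, h.mem, h.eqn⟩⟩

open Pool.Agent.Run7.h407 Pool.Agent.Run7.h407.G in
theorem admissible_iff {p : ℕ → E3 → E3} {g : ℕ → Fin 2 → E3 → E3} {W : Set (E3 → E3)}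
    (h : IsSpace p g W) {T : ℝ} {v : ℝ → E3 → E3} : IsAdmissible W T v ↔ LH.IsWT h.sub T v :=
  ⟨fun h => ⟨h.measurable, h.mem, h.energy, h.weak⟩, fun h => ⟨h.meas, h.mem, h.en, h.weak⟩⟩

theorem vanishes_iff {z : E3} {v : E3 → E3} : VanishesNear z v ↔ ∀ᶠ x in 𝓝 z, v x = 0 := by
  rw [Metric.eventually_nhds_iff]
  constructor
  · rintro ⟨ρ, h1, h2⟩
    exact ⟨ρ, h1, fun x hx => h2 x (by rwa [dist_eq_norm] at hx)⟩
  · rintro ⟨ρ, h1, h2⟩
    exact ⟨ρ, h1, fun x hx => h2 (by rwa [dist_eq_norm])⟩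

theorem cubeInBall_iff {z : E3} {ρ : ℝ} {v : E3 → E3} :
    CubeInBall z ρ v ↔ ∀ x ∈ cube, v x ≠ 0 → ‖x - z‖ ≤ ρ := by
  constructor
  · intro h x hc hx
    by_contra hcon
    exact hx (h x hc (not_le.1 hcon))
  · intro h x hc hx
    by_contra hcon
    exact absurd (h x hc hcon) (not_le.2 hx)

theorem inBall_of {ρ : ℝ} {v : E3 → E3} (h : ∀ x, v x ≠ 0 → ‖x‖ ≤ ρ) : InBall ρ v :=
  fun x hx => by
    by_contra hcon
    exact absurd (h x hcon) (not_le.2 hx)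

open Pool.Agent.Run7.h407 Pool.Agent.Run7.h407.G Pool.Agent.Run7.h407.G.X in
theorem universal_of {q : ℝ} {P : ℕ → E3 → E3} {G : ℕ → Fin 2 → E3 → E3} (h : UFE q P G) :
    IsUniversal q P G := by
  refine ⟨fun m => ⟨(h.mode m).1, (h.mode m).2.2.1, ?_, inBall_of (h.ballP m)⟩,
    fun m i => ⟨(h.field m i).1, vanishes_iff.2 (h.field m i).2.2, inBall_of (h.ballG m i)⟩⟩
  by_contra hcon
  push Not at hcon
  have h1 := (h.mode m).2.2.2
  have h2 : ∀ x, P m x = 0 := fun x => norm_le_zero_iff.1 (hcon x)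
  rw [ip_zero_of' (fun x => Or.inl (h2 x))] at h1
  exact lt_irrefl _ h1

open Pool.Agent.Run7.h407.G.X in
theorem family_of {q : ℝ} {P : ℕ → E3 → E3} {G : ℕ → Fin 2 → E3 → E3} {k : ℕ} {z : E3}
    {U : E3 → E3} {p : ℕ → E3 → E3} {g : ℕ → Fin 2 → E3 → E3}
    (h : FamT q z U p g) (ht : TailE P G k z p g) : IsFamily P G k z U p g := by
  obtain ⟨Wm, hWm, hWi⟩ := h.big
  have key : ∀ w, w ∈ Wm ↔ IsSolenoidal w ∧ Constrained g w := by
    intro w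
    rw [hWi]
    exact ⟨fun h => ⟨⟨h.1, h.2.1, fun φ h1 => h.2.2.1 φ h1.1 h1.2⟩, h.2.2.2⟩,
      fun h => ⟨h.1.periodic, h.1.sqInt, fun φ h1 h2 => h.1.div_free φ ⟨h1, h2⟩, h.2⟩⟩
  refine ⟨h.zero, fun n => ⟨⟨(h.mode n).1, (h.mode n).2.1, (h.mode n).2.2.1⟩,
    (h.mode n).2.2.2⟩, h.orth, fun n i => ⟨(h.field n i).1, (h.field n i).2.1,
    vanishes_iff.2 (h.field n i).2.2⟩, fun n hn => ?_, ?_⟩
  · obtain ⟨m, rfl⟩ := Nat.exists_eq_add_of_le' hn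
    exact ht m
  · refine ⟨fun v hv w hw a b => ?_, fun w hw => hw, fun v h1 h2 ⟨c, hc⟩ => ?_⟩
    · refine (key _).1 ?_
      exact Wm.add_mem (Wm.smul_mem a ((key v).2 hv)) (Wm.smul_mem b ((key w).2 hw))
    · exact (key v).1 (hWm.mem v h1 h2 ⟨c, fun x => Pi.hasSum.2 (hc x)⟩)

open Pool.Agent.Run7.h407.G.X in
theorem blowsUp_of {δ T₀ : ℝ} {z : E3} {p : ℕ → E3 → E3} {g : ℕ → Fin 2 → E3 → E3}
    {v : E3 → E3} (h : BloT δ z p g v T₀) : BlowsUp δ z p g v T₀ := by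
  obtain ⟨T, hT, hTA, u, k0, k1, k2, k3, k4, k6⟩ := h
  refine ⟨T, hT, hTA, u, k0, k1, k2, k3, fun M => ?_, fun W hW => ?_⟩
  · filter_upwards [k4 M] with t ht
    obtain ⟨x, hx⟩ := ht
    refine ⟨x, hx.trans_le ?_⟩
    refine le_trans (le_abs_self _) ?_
    exact norm_le_pi_norm (vorticity (u t) x) 2
  · have hs := hW.spt
    obtain ⟨k7, k8⟩ := k6 hW.sub hs
    refine ⟨(proj_iff hW).2 k7, fun T' w hw h0 => k8 T' w ((proj_iff hW).1 hw) h0,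
      fun T' w hw h0 => ?_⟩
    refine LH.wt_unique k0 hs.per hs.l2 hs.wdf k7.mem k7.eqn ((admissible_iff hW).1 hw) ?_
    rw [k1]
    exact h0

open Pool.Agent.Run7.h407 Pool.Agent.Run7.h407.G.X in
theorem om_of_not_steady {U : E3 → E3} (h : ¬ IsSteady U) :
    ∃ i x, om i (adv U U) x ≠ 0 := by
  by_contra hcon
  push Not at hcon
  apply h
  intro i j x
  have h1 := wg_le (adv U U) i j x
  simp only [hcon, abs_zero, Finset.sum_const_zero] at h1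
  have h2 := abs_nonpos_iff.1 h1
  unfold wg at h2
  exact sub_eq_zero.1 h2

theorem main (δ q β : ℝ) (hδ : 0 < δ) (hq : 1 < q) (hβ0 : 0 < β) (hβ1 : β < 1) :
    ∃ (P : ℕ → E3 → E3) (G : ℕ → Fin 2 → E3 → E3), IsUniversal q P G ∧
    (∀ (U : E3 → E3) (z : E3), IsFlow U → (∃ r < Real.pi, CubeInBall 0 r U) →
      mag z < Real.pi → VanishesNear z U →
      (¬ IsSteady U → ∃ k₀ : ℕ, ∀ k ≥ k₀, ∃ (p : ℕ → E3 → E3) (g : ℕ → Fin 2 → E3 → E3),
        IsFamily P G k z U p g ∧ ∃ A₀ > 0, ∀ a > 0, BlowsUp δ z p g (scale a U) (A₀ / a)) ∧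
      (∀ ε > 0, ∃ k₀ : ℕ, ∀ k ≥ k₀, ∃ F : E3 → E3, IsFlow F ∧ CubeInBall z ε F ∧
        (∀ x, mag (F x) ≤ ε) ∧ (∀ x y, dst (F x) (F y) ≤ ε * dst x y ^ β) ∧
        ∃ (p : ℕ → E3 → E3) (g : ℕ → Fin 2 → E3 → E3), IsFamily P G k z (plus U F) p g ∧
          ∀ a > 0, BlowsUp δ z p g (scale a (plus U F)) (ε / a))) ∧
    (∀ (p : ℕ → E3 → E3) (g : ℕ → Fin 2 → E3 → E3) (W : Set (E3 → E3)),
      IsSpace p g W → ∀ (T : ℝ) (w : ℝ → E3 → E3), IsProjected W T w →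
        IsAdmissible W T w ∧ ∀ t ∈ Ico 0 T,
          (∀ x, divergence (w t) x = 0) ∧ innerL2 (w t) (w t) = innerL2 (w 0) (w 0)) := by
  obtain ⟨α, η, hα, hαq, hη, hη1, hη2, hα1, hα2⟩ := G.X.exists_alphaU hδ hq hβ1
  obtain ⟨X, M⟩ := G.X.exists_mstE hα hq hαq
  have hα3 : α < 5 * G.X.kq q := by
    have := G.X.kq_pos hq
    linarith
  refine ⟨_, _, universal_of M.uf, fun U z hU ⟨r, hr, hUr⟩ hz hzU => ⟨fun hUs => ?_,
    fun ε hε => ?_⟩, fun p g W hW T w hw => ?_⟩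
  · have hUr' : ∀ x ∈ cube, U x ≠ 0 → ‖x‖ ≤ r := fun x hc hx => by
      have := cubeInBall_iff.1 hUr x hc hx
      rwa [sub_zero] at this
    obtain ⟨k₀, hk₀⟩ := G.X.mainTAV M hδ hη hη1 hη2 hα3 hU.smooth hU.periodic hU.div_free hr hUr'
      hz (vanishes_iff.1 hzU) (om_of_not_steady hUs)
    refine ⟨k₀, fun k hk => ?_⟩
    obtain ⟨p, g, h1, h2, A₀, hA, H⟩ := hk₀ k hk
    exact ⟨p, g, family_of h1 h2, A₀, hA, fun a ha => blowsUp_of (H a ha)⟩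
  · have hUr' : ∀ x ∈ cube, U x ≠ 0 → ‖x‖ ≤ r := fun x hc hx => by
      have := cubeInBall_iff.1 hUr x hc hx
      rwa [sub_zero] at this
    obtain ⟨k₀, hk₀⟩ := G.X.mainTBV M hδ hη hη1 hη2 hα2 hα1 hU.smooth hU.periodic hU.div_free hr
      hUr' hz (vanishes_iff.1 hzU) hβ0 hβ1 hε
    refine ⟨k₀, fun k hk => ?_⟩
    obtain ⟨F, h1, h2, h3, h4, h5, h6, p, g, h7, h9, h8⟩ := hk₀ k hk
    exact ⟨F, ⟨h1, h2, h3⟩, cubeInBall_iff.2 h4, h5, h6, p, g, family_of h7 h9,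
      fun a ha => blowsUp_of (h8 a ha)⟩
  · have hs := hW.spt
    refine ⟨(admissible_iff hW).2 (LH.wt_of_proj ((proj_iff hW).1 hw) hs.per hs.wdf), ?_⟩
    exact fun t ht => ⟨((proj_iff hW).1 hw).dvg hs ht, ((proj_iff hW).1 hw).energy hs ht⟩

end Pool.Agent.Run7.h407.LE
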